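import Pool.Agent.N770.Four6

/-!
# The `p`-adic strong four exponentials conjecture in spaces of dimension four

Let `L` be the Iwasawa logarithm. We consider the counterexamples to the `p`-adic strong four
exponentials conjecture with linearly dependent entries: the matrices `A (x, x t; x t, x t ^ 2) B`,
where `x, x t, x t ^ 2` are linear forms in `p`-adic logarithms of algebraic numbers in geometric
progression, `t` is transcendental, and `A`, `B` are invertible matrices of algebraic numbers. Let
`V` be a space of dimension at most four of linear forms in `p`-adic logarithms, for example the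
space spanned by the logarithms of four prime numbers different from `p`, or by `1` and three such
logarithms. We prove:

(1) up to equivalence at most four counterexamples with linearly dependent entries have their
entries in `V`;

(2) up to equivalence at most three of them are such that a given number `f ≠ 0` is a linear
combination of the entries.

The proof of (1). The squares of the elements of `V` span a space of dimension at least eight, by the
strong six exponentials theorem (`Quad1`), hence at most two quadratic relations between the elements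
of a basis of `V` are linearly independent (`Quad2`). A counterexample `M_i` gives the relation
`x z - y ^ 2 = 0`, a quadratic form of rank three, which determines `M_i` up to equivalence (`Four2`,
`Quad3`). If `M_0` and `M_1` are inequivalent, all the others are combinations `Q_0 + λ Q_1`. The
determinant `det (Q_0 + λ Q_1)` is a polynomial in `λ`, with zeros at `λ = 0` and at infinity
(`Quad4`). It is not zero identically: otherwise the spaces spanned by the entries of `M_0` and `M_1`
are, up to a common factor, `⟨1, v, q⟩` and `⟨1, v, q'⟩` where `q`, `q'` are two of the functions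
`v ^ 2`, `1 / (v - r)`, and this contradicts the six exponentials theorem (`Quad7`). So there are at
most two further counterexamples.

The proof of (2). After division by `f` we have to consider planes `⟨1, u, v⟩` with a quadratic
relation. Two such planes intersect in `⟨1, v⟩`, at most two of them contain `v` (`Dir`), and in the
quadratic extension of the field of rational functions in `v` which they generate there is only one
possibility for a third plane which does not contain `v` (`Tri3`).
-/

set_option autoImplicit false

namespace Pool.Agent.Results.MP_dd0d16_nt.AtMostFourInDimensionFour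

/-- `L` is the Iwasawa logarithm on the algebraic closure of `ℚ_p`. -/
structure IsIwasawaLog (p : ℕ) [Fact p.Prime] (L : PadicAlgCl p → PadicAlgCl p) : Prop where
  mul : ∀ x y : PadicAlgCl p, x ≠ 0 → y ≠ 0 → L (x * y) = L x + L y
  prime : L ((p : ℕ) : PadicAlgCl p) = 0
  ser : ∀ z : PadicAlgCl p, ‖z‖ < 1 →
    HasSum (fun n : ℕ => (-1 : PadicAlgCl p) ^ n * z ^ (n + 1) / ((n : PadicAlgCl p) + 1))
      (L (1 + z))

/-- The space of all linear combinations with algebraic coefficients of `1` and of the values of `L`
at algebraic numbers. -/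
noncomputable def LogForms {p : ℕ} [Fact p.Prime] (L : PadicAlgCl p → PadicAlgCl p) :
    Submodule (algebraicClosure ℚ (PadicAlgCl p)) (PadicAlgCl p) :=
  Submodule.span (algebraicClosure ℚ (PadicAlgCl p))
    ({1} ∪ {z | ∃ α : PadicAlgCl p, α ≠ 0 ∧ IsAlgebraic ℚ α ∧ z = L α})

/-- `M` is a counterexample to the `p`-adic strong four exponentials conjecture: its entries are
linear forms in logarithms, the rows and the columns are linearly independent over the algebraic
numbers, and the determinant is zero. -/
def IsCounterexample {p : ℕ} [Fact p.Prime] (L : PadicAlgCl p → PadicAlgCl p)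
    (M : Matrix (Fin 2) (Fin 2) (PadicAlgCl p)) : Prop :=
  (∀ i j, M i j ∈ LogForms L) ∧
    LinearIndependent (algebraicClosure ℚ (PadicAlgCl p)) M.row ∧
    LinearIndependent (algebraicClosure ℚ (PadicAlgCl p)) M.col ∧ M.det = 0

/-- `M' = A M B` with invertible matrices `A`, `B` of algebraic numbers. -/
def Equivalent {p : ℕ} [Fact p.Prime] (M M' : Matrix (Fin 2) (Fin 2) (PadicAlgCl p)) : Prop :=
  ∃ A B : Matrix (Fin 2) (Fin 2) (algebraicClosure ℚ (PadicAlgCl p)), A.det ≠ 0 ∧ B.det ≠ 0 ∧
    M' = A.map (algebraMap _ (PadicAlgCl p)) * M * B.map (algebraMap _ (PadicAlgCl p))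

/-- `M` is a counterexample with linearly dependent entries, which are elements of `V`. -/
def IsDependentIn {p : ℕ} [Fact p.Prime] (L : PadicAlgCl p → PadicAlgCl p)
    (V : Submodule (algebraicClosure ℚ (PadicAlgCl p)) (PadicAlgCl p))
    (M : Matrix (Fin 2) (Fin 2) (PadicAlgCl p)) : Prop :=
  IsCounterexample L M ∧ (∀ i j, M i j ∈ V) ∧
    ¬ LinearIndependent (algebraicClosure ℚ (PadicAlgCl p)) ![M 0 0, M 0 1, M 1 0, M 1 1]

/-- **Main result.** -/
theorem result (p : ℕ) [Fact p.Prime] (L : PadicAlgCl p → PadicAlgCl p) (hL : IsIwasawaLog p L)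
    (V : Submodule (algebraicClosure ℚ (PadicAlgCl p)) (PadicAlgCl p))
    [FiniteDimensional (algebraicClosure ℚ (PadicAlgCl p)) V] (hV : V ≤ LogForms L)
    (hV4 : Module.finrank (algebraicClosure ℚ (PadicAlgCl p)) V ≤ 4) :
    (∀ M : Fin 5 → Matrix (Fin 2) (Fin 2) (PadicAlgCl p), (∀ k, IsDependentIn L V (M k)) →
      ∃ k l, k ≠ l ∧ Equivalent (M k) (M l)) ∧
    (∀ f : PadicAlgCl p, f ≠ 0 →
      ∀ M : Fin 4 → Matrix (Fin 2) (Fin 2) (PadicAlgCl p), (∀ k, IsDependentIn L V (M k)) →
        (∀ k, f ∈ Submodule.span (algebraicClosure ℚ (PadicAlgCl p))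
          (Set.range fun q : Fin 2 × Fin 2 => M k q.1 q.2)) →
        ∃ k l, k ≠ l ∧ Equivalent (M k) (M l)) := by
  have hL' : Pool.Agent.W245.PB.IsIwasawaLog p L := ⟨hL.mul, hL.prime, hL.ser⟩
  have hac : IsAlgClosed (algebraicClosure ℚ (PadicAlgCl p)) :=
    Pool.Agent.N770.isAlgClosed_QC (Cc := PadicAlgCl p)
  have hS : Pool.Agent.N770.SixExp (algebraicClosure ℚ (PadicAlgCl p)) V :=
    (Pool.Agent.N770.sixExp_padic hL').mono hV
  have hc : ∀ {M : Matrix (Fin 2) (Fin 2) (PadicAlgCl p)}, IsDependentIn L V M →
      Pool.Agent.N770.IsCounter (algebraicClosure ℚ (PadicAlgCl p)) M :=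
    fun h => ⟨h.1.2.2.2, h.1.2.1, h.1.2.2.1⟩
  refine ⟨fun M hM => ?_, fun f hf M hM hfM => ?_⟩
  · obtain ⟨k, l, hkl, he⟩ := Pool.Agent.N770.four_counter two_ne_zero V hS hV4 M
      (fun k => (hM k).2.1) (fun k => hc (hM k)) (fun k => (hM k).2.2)
    exact ⟨k, l, hkl, Pool.Agent.N770.eqv_of_entries_eq (hc (hM k)) (hc (hM l)) (hM k).2.2
      (hM l).2.2 he⟩
  · obtain ⟨k, l, hkl, he⟩ := Pool.Agent.N770.three_counter two_ne_zero V hS hV4 f hf M
      (fun k => (hM k).2.1) (fun k => hc (hM k)) (fun k => (hM k).2.2) hfM
    exact ⟨k, l, hkl, Pool.Agent.N770.eqv_of_entries_eq (hc (hM k)) (hc (hM l)) (hM k).2.2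
      (hM l).2.2 he⟩

end Pool.Agent.Results.MP_dd0d16_nt.AtMostFourInDimensionFour
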