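import Pool.Agent.N770.Four3

/-!
# The `p`-adic strong four exponentials conjecture: finitely many counterexamples with linearly
dependent entries through a given number

Let `L` be the Iwasawa logarithm and let `LogForms L` be the space of all linear combinations, with
algebraic coefficients, of `1` and of `p`-adic logarithms of algebraic numbers. A counterexample to
the conjecture is a `2 × 2` matrix `M` of rank one with entries in `LogForms L` whose rows and whose
columns are linearly independent over the algebraic numbers. With `M` all matrices `A M B`, where `A`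
and `B` are invertible matrices of algebraic numbers, are counterexamples (equivalent to `M`).

Consider the counterexamples with linearly dependent entries. They are equivalent to the matrices
`(x, x t; x t, x t ^ 2)`, that is, to three linear forms in logarithms `x, x t, x t ^ 2` in geometric
progression. We prove: let `V` be any space of finite dimension of linear forms in `p`-adic
logarithms and let `f ≠ 0` be any number. Up to equivalence there are only finitely many
counterexamples `M` with linearly dependent entries in `V` such that `f` is a linear combination of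
the entries of `M`. For example, `f = 1` or `f = log 2`.

The proof. After division by `f` we may assume `f = 1`, since the conclusion of the `p`-adic strong
six exponentials theorem is homogeneous. The entries of `M` span a space `x ⟨1, t, t ^ 2⟩` which
contains `1`, so that it is `⟨1, u, v⟩` with `v = u ^ 2` or `v = 1 / u`, and it determines `M` up to
equivalence, because `t` is unique up to fractional linear transformations (`Four2`). For the
parabolas `v = u ^ 2`: the set of all `u ∈ V` with `u ^ 2 ∈ V` contains with `u` the plane `⟨1, u⟩`,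
which is by the six exponentials theorem equal to the tangent space of this set at `u`, so that it is
one of finitely many components (`Par`). For the hyperbolas `v = 1 / u`: the algebraic set of all
`u ∈ V` with `1 / u ∈ V` and `χ(u) = 1`, for an algebraic point `χ` of the algebra generated by `V`,
has no point at infinity, since `u₀ w₀ = 0` for the leading coefficients of `u` and `1 / u` at such a
point; hence this set is finite (`Hyp`).
-/

set_option autoImplicit false

namespace Pool.Agent.Results.MP_dd0d16_nt.FinitelyManyThroughElement

/-- `L` is the Iwasawa logarithm on the algebraic closure of `ℚ_p`. -/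
structure IsIwasawaLog (p : ℕ) [Fact p.Prime] (L : PadicAlgCl p → PadicAlgCl p) : Prop where
  mul : ∀ x y : PadicAlgCl p, x ≠ 0 → y ≠ 0 → L (x * y) = L x + L y
  prime : L ((p : ℕ) : PadicAlgCl p) = 0
  ser : ∀ z : PadicAlgCl p, ‖z‖ < 1 →
    HasSum (fun n : ℕ => (-1 : PadicAlgCl p) ^ n * z ^ (n + 1) / ((n : PadicAlgCl p) + 1))
      (L (1 + z))

/-- The space of all linear combinations with algebraic coefficients of `1` and of the values of `L`
at algebraic numbers. -/
noncomputable def LogForms {p : ℕ} [Fact p.Prime] (L : PadicAlgCl p → PadicAlgCl p) :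
    Submodule (algebraicClosure ℚ (PadicAlgCl p)) (PadicAlgCl p) :=
  Submodule.span (algebraicClosure ℚ (PadicAlgCl p))
    ({1} ∪ {z | ∃ α : PadicAlgCl p, α ≠ 0 ∧ IsAlgebraic ℚ α ∧ z = L α})

/-- `M` is a counterexample to the `p`-adic strong four exponentials conjecture: its entries are
linear forms in logarithms, the rows and the columns are linearly independent over the algebraic
numbers, and the determinant is zero. -/
def IsCounterexample {p : ℕ} [Fact p.Prime] (L : PadicAlgCl p → PadicAlgCl p)
    (M : Matrix (Fin 2) (Fin 2) (PadicAlgCl p)) : Prop :=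
  (∀ i j, M i j ∈ LogForms L) ∧
    LinearIndependent (algebraicClosure ℚ (PadicAlgCl p)) M.row ∧
    LinearIndependent (algebraicClosure ℚ (PadicAlgCl p)) M.col ∧ M.det = 0

/-- `M' = A M B` with invertible matrices `A`, `B` of algebraic numbers. -/
def Equivalent {p : ℕ} [Fact p.Prime] (M M' : Matrix (Fin 2) (Fin 2) (PadicAlgCl p)) : Prop :=
  ∃ A B : Matrix (Fin 2) (Fin 2) (algebraicClosure ℚ (PadicAlgCl p)), A.det ≠ 0 ∧ B.det ≠ 0 ∧
    M' = A.map (algebraMap _ (PadicAlgCl p)) * M * B.map (algebraMap _ (PadicAlgCl p))

/-- **Main result.** -/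
theorem result (p : ℕ) [Fact p.Prime] (L : PadicAlgCl p → PadicAlgCl p) (hL : IsIwasawaLog p L)
    (V : Submodule (algebraicClosure ℚ (PadicAlgCl p)) (PadicAlgCl p))
    [FiniteDimensional (algebraicClosure ℚ (PadicAlgCl p)) V] (hV : V ≤ LogForms L)
    (f : PadicAlgCl p) (hf : f ≠ 0) :
    ∃ F : Set (Matrix (Fin 2) (Fin 2) (PadicAlgCl p)), F.Finite ∧
      (∀ M ∈ F, IsCounterexample L M) ∧
      ∀ M : Matrix (Fin 2) (Fin 2) (PadicAlgCl p), IsCounterexample L M →
        (∀ i j, M i j ∈ V) →
        ¬ LinearIndependent (algebraicClosure ℚ (PadicAlgCl p)) ![M 0 0, M 0 1, M 1 0, M 1 1] →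
        f ∈ Submodule.span (algebraicClosure ℚ (PadicAlgCl p))
          (Set.range fun k : Fin 2 × Fin 2 => M k.1 k.2) →
        ∃ M₀ ∈ F, Equivalent M₀ M := by
  have hL' : Pool.Agent.W245.PB.IsIwasawaLog p L := ⟨hL.mul, hL.prime, hL.ser⟩
  have hac : IsAlgClosed (algebraicClosure ℚ (PadicAlgCl p)) :=
    Pool.Agent.N770.isAlgClosed_QC (Cc := PadicAlgCl p)
  have hS : Pool.Agent.N770.SixExp (algebraicClosure ℚ (PadicAlgCl p)) V :=
    (Pool.Agent.N770.sixExp_padic hL').mono hV
  obtain ⟨F, hF, hFc, hcov⟩ := Pool.Agent.N770.finite_through two_ne_zero V hS f hf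
  refine ⟨F, hF, fun M hM => ?_, fun M hM hMV hdep hfM => ?_⟩
  · obtain ⟨⟨h1, h2, h3⟩, h4⟩ := hFc M hM
    exact ⟨fun i j => hV (h4 i j), h2, h3, h1⟩
  · exact hcov M hMV ⟨hM.2.2.2, hM.2.1, hM.2.2.1⟩ hdep hfM

end Pool.Agent.Results.MP_dd0d16_nt.FinitelyManyThroughElement
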