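import Pool.Agent.N770.RowsGen
import Pool.Agent.N770.Four2

/-!
# The `p`-adic strong four exponentials conjecture: all counterexamples with one row in a given space

Let `L` be the Iwasawa logarithm and `V` a space of dimension `n`, over the field of the algebraic
numbers, of linear forms in `1` and `p`-adic logarithms of algebraic numbers.

(1) We consider ALL counterexamples to the `p`-adic strong four exponentials conjecture for which one
row or one column (or a nontrivial algebraic combination of the rows, or of the columns) has its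
entries in `V`; the other entries are arbitrary linear forms in logarithms.  All their entries belong
to one space `W ⊇ V` of linear forms in logarithms, of dimension at most `n ^ 2`.  There is no
condition on the dependence of the entries.

(2) Let `X` be an arbitrary `d`-dimensional space over the field of the algebraic numbers, and let
`e ≥ 2`.  All the subspaces of dimension at least `e` of spaces `y X`, `y` any number, which consist of
linear forms in logarithms lie in one space of dimension at most `2 d (d - 1) / (e - 1)`.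

The proof: by the hyperplane case of the linear subgroup theorem (Waldschmidt, Roy) the kernel of the
multiplication `X ⊗ W → X W` has dimension at most `d (d - 1)` for all spaces `W` of linear forms in
logarithms, and the relations `u (y u') = u' (y u)` make it grow if `W` is enlarged by `y U`, `U ⊂ X`
(`Pool.Agent.N770.Def.block`).  In (1) `X = V`, and one starts with `W = V`.
-/

set_option autoImplicit false

namespace Pool.Agent.Results.MP_dd0d16_nt.OneRowInASpace

/-- `L` is the Iwasawa logarithm on the algebraic closure of `ℚ_p`. -/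
structure IsIwasawaLog (p : ℕ) [Fact p.Prime] (L : PadicAlgCl p → PadicAlgCl p) : Prop where
  mul : ∀ x y : PadicAlgCl p, x ≠ 0 → y ≠ 0 → L (x * y) = L x + L y
  prime : L ((p : ℕ) : PadicAlgCl p) = 0
  ser : ∀ z : PadicAlgCl p, ‖z‖ < 1 →
    HasSum (fun n : ℕ => (-1 : PadicAlgCl p) ^ n * z ^ (n + 1) / ((n : PadicAlgCl p) + 1))
      (L (1 + z))

/-- The space of all linear combinations with algebraic coefficients of `1` and of the values of `L`
at algebraic numbers. -/
noncomputable def LogForms {p : ℕ} [Fact p.Prime] (L : PadicAlgCl p → PadicAlgCl p) :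
    Submodule (algebraicClosure ℚ (PadicAlgCl p)) (PadicAlgCl p) :=
  Submodule.span (algebraicClosure ℚ (PadicAlgCl p))
    ({1} ∪ {z | ∃ α : PadicAlgCl p, α ≠ 0 ∧ IsAlgebraic ℚ α ∧ z = L α})

/-- `M` is a counterexample to the `p`-adic strong four exponentials conjecture: its entries are
linear forms in logarithms, the rows and the columns are linearly independent over the algebraic
numbers, and the determinant is zero. -/
def IsCounterexample {p : ℕ} [Fact p.Prime] (L : PadicAlgCl p → PadicAlgCl p)
    (M : Matrix (Fin 2) (Fin 2) (PadicAlgCl p)) : Prop :=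
  (∀ i j, M i j ∈ LogForms L) ∧
    LinearIndependent (algebraicClosure ℚ (PadicAlgCl p)) M.row ∧
    LinearIndependent (algebraicClosure ℚ (PadicAlgCl p)) M.col ∧ M.det = 0

/-- A nontrivial combination of the rows of `M`, with algebraic coefficients, has its entries in
`V`. -/
def HasRowIn {p : ℕ} [Fact p.Prime]
    (V : Submodule (algebraicClosure ℚ (PadicAlgCl p)) (PadicAlgCl p))
    (M : Matrix (Fin 2) (Fin 2) (PadicAlgCl p)) : Prop :=
  ∃ a : Fin 2 → algebraicClosure ℚ (PadicAlgCl p), a ≠ 0 ∧ ∀ j, ∑ i, a i • M i j ∈ V

/-- multiplication by `y` -/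
noncomputable def times {p : ℕ} [Fact p.Prime] (y : PadicAlgCl p)
    (U : Submodule (algebraicClosure ℚ (PadicAlgCl p)) (PadicAlgCl p)) :
    Submodule (algebraicClosure ℚ (PadicAlgCl p)) (PadicAlgCl p) :=
  U.map (LinearMap.mulLeft (algebraicClosure ℚ (PadicAlgCl p)) y)

/-- **Main result.** -/
theorem result (p : ℕ) [Fact p.Prime] (L : PadicAlgCl p → PadicAlgCl p) (hL : IsIwasawaLog p L) :
    (∀ V : Submodule (algebraicClosure ℚ (PadicAlgCl p)) (PadicAlgCl p),
      FiniteDimensional (algebraicClosure ℚ (PadicAlgCl p)) V → V ≤ LogForms L →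
      ∃ W : Submodule (algebraicClosure ℚ (PadicAlgCl p)) (PadicAlgCl p),
        FiniteDimensional (algebraicClosure ℚ (PadicAlgCl p)) W ∧ V ≤ W ∧ W ≤ LogForms L ∧
        Module.finrank (algebraicClosure ℚ (PadicAlgCl p)) W ≤
          Module.finrank (algebraicClosure ℚ (PadicAlgCl p)) V ^ 2 ∧
        ∀ M : Matrix (Fin 2) (Fin 2) (PadicAlgCl p), IsCounterexample L M →
          (HasRowIn V M ∨ HasRowIn V M.transpose) → ∀ i j, M i j ∈ W) ∧
    (∀ X : Submodule (algebraicClosure ℚ (PadicAlgCl p)) (PadicAlgCl p),
      FiniteDimensional (algebraicClosure ℚ (PadicAlgCl p)) X → ∀ e : ℕ, 2 ≤ e →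
      ∃ W : Submodule (algebraicClosure ℚ (PadicAlgCl p)) (PadicAlgCl p),
        FiniteDimensional (algebraicClosure ℚ (PadicAlgCl p)) W ∧ W ≤ LogForms L ∧
        (e - 1) * Module.finrank (algebraicClosure ℚ (PadicAlgCl p)) W ≤
          2 * (Module.finrank (algebraicClosure ℚ (PadicAlgCl p)) X *
            (Module.finrank (algebraicClosure ℚ (PadicAlgCl p)) X - 1)) ∧
        ∀ (y : PadicAlgCl p) (U : Submodule (algebraicClosure ℚ (PadicAlgCl p)) (PadicAlgCl p)),
          U ≤ X → e ≤ Module.finrank (algebraicClosure ℚ (PadicAlgCl p)) U →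
          times y U ≤ LogForms L → times y U ≤ W) := by
  have hL' : Pool.Agent.W245.PB.IsIwasawaLog p L := ⟨hL.mul, hL.prime, hL.ser⟩
  have hS : Pool.Agent.N770.ProdLe (algebraicClosure ℚ (PadicAlgCl p)) (LogForms L) :=
    Pool.Agent.N770.prodLe_padic hL'
  constructor
  · intro V hVf hVL
    obtain ⟨W, hWf, hVW, hWL, hWd, hW⟩ := Pool.Agent.N770.rows_sq_gen hS V hVL
    refine ⟨W, hWf, hVW, hWL, hWd, ?_⟩
    rintro M ⟨hM, hrow, hcol, hdet⟩ (⟨a, ha, haV⟩ | ⟨a, ha, haV⟩)
    · exact Pool.Agent.N770.entries_in hW hM hdet hrow hcol a ha haV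
    · intro i j
      exact Pool.Agent.N770.entries_in hW (M := M.transpose) (fun i j => hM j i)
        (by rw [Matrix.det_transpose]; exact hdet) hcol hrow a ha haV j i
  · intro X hXf e he
    obtain ⟨c, rfl⟩ : ∃ c, e = c + 1 := ⟨e - 1, by omega⟩
    rw [Nat.add_sub_cancel]
    exact Pool.Agent.N770.rows_any_gen hS X c (by omega)

end Pool.Agent.Results.MP_dd0d16_nt.OneRowInASpace
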