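import Pool.Agent.N770.Four4

/-!
# The `p`-adic strong four exponentials conjecture: counterexamples with two common elements are
linearly independent

Let `L` be the Iwasawa logarithm. We consider the counterexamples to the `p`-adic strong four
exponentials conjecture with linearly dependent entries: the matrices
`A (x, x t; x t, x t ^ 2) B`, where `x, x t, x t ^ 2` are linear forms in `p`-adic logarithms of
algebraic numbers in geometric progression, `t` is transcendental, and `A`, `B` are invertible
matrices of algebraic numbers. The entries of such a matrix span a space of dimension three over the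
algebraic numbers, which determines the matrix up to equivalence. We prove: let `f` and `g` be
linearly independent over the algebraic numbers and let `M_1, ..., M_n` be pairwise inequivalent
counterexamples with linearly dependent entries, such that `f` and `g` are linear combinations of the
entries of `M_k`, for every `k`. Then the entries of `M_1, ..., M_n` span a space of dimension at
least (and hence exactly) `n + 2`.

In particular a space `V` of dimension `N` of linear forms in logarithms contains the entries of at
most `N - 2` such counterexamples through `f` and `g` up to equivalence. For example let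
`λ = L α, μ = L β, ν = L γ` be logarithms of algebraic numbers, linearly independent over `ℚ`. At most
two of the infinitely many spaces `⟨1, λ, a μ + b ν⟩` (`a`, `b` algebraic), and at most two of the
spaces `⟨λ, μ, a + b ν⟩`, are spanned by three numbers `x, x t, x t ^ 2` in geometric progression.

The proof. After division by `f` we have `f = 1`, and `g = v` is transcendental. The entries of `M_k`
span a space `⟨1, v, u_k⟩` with a quadratic relation between `u_k` and `v`. Modulo `⟨1, v⟩`, the
element `u_k` is a square root of a polynomial in `v` of degree at most two which is not a square, or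
a constant multiple of `v ^ 2` or of `1 / (v - r)` (`Dir`). The square roots are linearly independent
over the field of the rational functions in `v`, unless two of the polynomials are proportional
(`Sqrt`). By the `p`-adic strong six exponentials theorem at most one of the functions `v ^ 2` and
`1 / (v - r)` is, up to the factor `f`, a linear form in logarithms.
-/

set_option autoImplicit false

namespace Pool.Agent.Results.MP_dd0d16_nt.PlanesWithCommonLine

/-- `L` is the Iwasawa logarithm on the algebraic closure of `ℚ_p`. -/
structure IsIwasawaLog (p : ℕ) [Fact p.Prime] (L : PadicAlgCl p → PadicAlgCl p) : Prop where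
  mul : ∀ x y : PadicAlgCl p, x ≠ 0 → y ≠ 0 → L (x * y) = L x + L y
  prime : L ((p : ℕ) : PadicAlgCl p) = 0
  ser : ∀ z : PadicAlgCl p, ‖z‖ < 1 →
    HasSum (fun n : ℕ => (-1 : PadicAlgCl p) ^ n * z ^ (n + 1) / ((n : PadicAlgCl p) + 1))
      (L (1 + z))

/-- The space of all linear combinations with algebraic coefficients of `1` and of the values of `L`
at algebraic numbers. -/
noncomputable def LogForms {p : ℕ} [Fact p.Prime] (L : PadicAlgCl p → PadicAlgCl p) :
    Submodule (algebraicClosure ℚ (PadicAlgCl p)) (PadicAlgCl p) :=
  Submodule.span (algebraicClosure ℚ (PadicAlgCl p))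
    ({1} ∪ {z | ∃ α : PadicAlgCl p, α ≠ 0 ∧ IsAlgebraic ℚ α ∧ z = L α})

/-- `M` is a counterexample to the `p`-adic strong four exponentials conjecture: its entries are
linear forms in logarithms, the rows and the columns are linearly independent over the algebraic
numbers, and the determinant is zero. -/
def IsCounterexample {p : ℕ} [Fact p.Prime] (L : PadicAlgCl p → PadicAlgCl p)
    (M : Matrix (Fin 2) (Fin 2) (PadicAlgCl p)) : Prop :=
  (∀ i j, M i j ∈ LogForms L) ∧
    LinearIndependent (algebraicClosure ℚ (PadicAlgCl p)) M.row ∧
    LinearIndependent (algebraicClosure ℚ (PadicAlgCl p)) M.col ∧ M.det = 0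

/-- `M' = A M B` with invertible matrices `A`, `B` of algebraic numbers. -/
def Equivalent {p : ℕ} [Fact p.Prime] (M M' : Matrix (Fin 2) (Fin 2) (PadicAlgCl p)) : Prop :=
  ∃ A B : Matrix (Fin 2) (Fin 2) (algebraicClosure ℚ (PadicAlgCl p)), A.det ≠ 0 ∧ B.det ≠ 0 ∧
    M' = A.map (algebraMap _ (PadicAlgCl p)) * M * B.map (algebraMap _ (PadicAlgCl p))

/-- The space spanned by the entries of `M`. -/
noncomputable def entries {p : ℕ} [Fact p.Prime] (M : Matrix (Fin 2) (Fin 2) (PadicAlgCl p)) :
    Submodule (algebraicClosure ℚ (PadicAlgCl p)) (PadicAlgCl p) :=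
  Submodule.span (algebraicClosure ℚ (PadicAlgCl p))
    (Set.range fun k : Fin 2 × Fin 2 => M k.1 k.2)

/-- **Main result.** -/
theorem result (p : ℕ) [Fact p.Prime] (L : PadicAlgCl p → PadicAlgCl p) (hL : IsIwasawaLog p L)
    (f g : PadicAlgCl p) (hfg : LinearIndependent (algebraicClosure ℚ (PadicAlgCl p)) ![f, g])
    (n : ℕ) (hn : 1 ≤ n) (M : Fin n → Matrix (Fin 2) (Fin 2) (PadicAlgCl p))
    (hM : ∀ k, IsCounterexample L (M k))
    (hdep : ∀ k, ¬ LinearIndependent (algebraicClosure ℚ (PadicAlgCl p))
      ![M k 0 0, M k 0 1, M k 1 0, M k 1 1])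
    (hf : ∀ k, f ∈ entries (M k)) (hg : ∀ k, g ∈ entries (M k))
    (hne : ∀ k l, k ≠ l → ¬ Equivalent (M k) (M l)) :
    n + 2 ≤ Module.finrank (algebraicClosure ℚ (PadicAlgCl p))
      (⨆ k, entries (M k) : Submodule (algebraicClosure ℚ (PadicAlgCl p)) (PadicAlgCl p)) := by
  have hL' : Pool.Agent.W245.PB.IsIwasawaLog p L := ⟨hL.mul, hL.prime, hL.ser⟩
  have hac : IsAlgClosed (algebraicClosure ℚ (PadicAlgCl p)) :=
    Pool.Agent.N770.isAlgClosed_QC (Cc := PadicAlgCl p)
  set W : Submodule (algebraicClosure ℚ (PadicAlgCl p)) (PadicAlgCl p) := ⨆ k, entries (M k)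
    with hW
  have hWL : W ≤ LogForms L := by
    rw [hW, iSup_le_iff]
    intro k
    exact Pool.Agent.N770.entries_le fun i j => (hM k).1 i j
  have hfd1 : ∀ k, FiniteDimensional (algebraicClosure ℚ (PadicAlgCl p)) (entries (M k)) :=
    fun k => FiniteDimensional.span_of_finite _ (Set.finite_range _)
  have hfd : FiniteDimensional (algebraicClosure ℚ (PadicAlgCl p)) W := by
    rw [hW]
    infer_instance
  have hS : Pool.Agent.N770.SixExp (algebraicClosure ℚ (PadicAlgCl p)) W :=
    (Pool.Agent.N770.sixExp_padic hL').mono hWL
  exact Pool.Agent.N770.indep_through_pair two_ne_zero W hS f g hfg n hn M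
    (fun k i j => (le_iSup (fun k => entries (M k)) k) (Submodule.subset_span ⟨(i, j), rfl⟩))
    (fun k => ⟨(hM k).2.2.2, (hM k).2.1, (hM k).2.2.1⟩) hdep hf hg hne

end Pool.Agent.Results.MP_dd0d16_nt.PlanesWithCommonLine
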